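import Pool.Agent.W425.ND.Stm

set_option autoImplicit false

/-! Project ND, part K2: faces are exposed. -/

namespace Pool.Agent.W13.ND

open Finset

/-- Gordan's theorem over an ordered field. -/
theorem gordan {ι k : Type} [Field k] [LinearOrder k] [IsStrictOrderedRing k] [DecidableEq ι]
    (s : Finset ι) : ∀ (V : Type) [AddCommGroup V] [Module k V] (q : ι → V),
    (∃ φ : V →ₗ[k] k, ∀ i ∈ s, 0 < φ (q i)) ∨
    ∃ l : ι → k, (∀ i ∈ s, 0 ≤ l i) ∧ (∃ i ∈ s, l i ≠ 0) ∧ ∑ i ∈ s, l i • q i = 0 := by
  induction s using Finset.induction_on with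
  | empty => intro V _ _ q; left; exact ⟨0, by simp⟩
  | insert a s ha ih =>
    intro V _ _ q
    by_cases hq : q a = 0
    · right
      refine ⟨fun i => if i = a then 1 else 0, ?_, ⟨a, mem_insert_self _ _, by simp⟩, ?_⟩
      · intro i _; dsimp only; split_ifs <;> norm_num
      · rw [Finset.sum_insert ha]
        simp only [if_true, one_smul, hq, zero_add]
        refine Finset.sum_eq_zero ?_
        intro i hi
        have : i ≠ a := by rintro rfl; exact ha hi
        simp [this]
    rcases ih (V ⧸ Submodule.span k {q a}) (fun i => Submodule.mkQ _ (q i)) with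
      ⟨φ, hφ⟩ | ⟨l, hl0, ⟨i0, hi0, hi0'⟩, hl⟩
    · left
      obtain ⟨ψ, hψ⟩ : ∃ ψ : V →ₗ[k] k, ψ (q a) ≠ 0 := by
        by_contra hcon
        push Not at hcon
        exact hq ((Module.forall_dual_apply_eq_zero_iff k (q a)).1 hcon)
      obtain ⟨ψ, hψ⟩ : ∃ ψ : V →ₗ[k] k, 0 < ψ (q a) := by
        rcases lt_or_gt_of_ne hψ with h | h
        · exact ⟨-ψ, by simpa using h⟩
        · exact ⟨ψ, h⟩
      set π := Submodule.mkQ (Submodule.span k {q a}) with hπ
      set T : k := 1 + ∑ i ∈ s, |ψ (q i)| / φ (π (q i)) with hT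
      have hT0 : ∀ i ∈ s, |ψ (q i)| / φ (π (q i)) < T := by
        intro i hi
        have h1 : |ψ (q i)| / φ (π (q i)) ≤ ∑ i ∈ s, |ψ (q i)| / φ (π (q i)) := by
          refine Finset.single_le_sum (f := fun i => |ψ (q i)| / φ (π (q i))) ?_ hi
          intro j hj
          exact div_nonneg (abs_nonneg _) (hφ j hj).le
        linarith
      refine ⟨T • (φ.comp π) + ψ, ?_⟩
      intro i hi
      rcases mem_insert.1 hi with rfl | hi
      · have h0 : π (q i) = 0 := by
          rw [hπ, Submodule.mkQ_apply, Submodule.Quotient.mk_eq_zero]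
          exact Submodule.mem_span_singleton_self _
        simp only [LinearMap.add_apply, LinearMap.smul_apply, LinearMap.comp_apply, h0, map_zero,
          smul_zero, zero_add]
        exact hψ
      · simp only [LinearMap.add_apply, LinearMap.smul_apply, LinearMap.comp_apply, smul_eq_mul]
        have h1 := (div_lt_iff₀ (hφ i hi)).1 (hT0 i hi)
        have h2 := neg_abs_le (ψ (q i))
        linarith
    · have hmem : ∑ i ∈ s, l i • q i ∈ Submodule.span k {q a} := by
        rw [← Submodule.Quotient.mk_eq_zero, ← Submodule.mkQ_apply, map_sum, ← hl]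
        refine Finset.sum_congr rfl ?_
        intro i _
        rw [map_smul]
      obtain ⟨c, hc⟩ := Submodule.mem_span_singleton.1 hmem
      by_cases hc0 : c ≤ 0
      · right
        refine ⟨fun i => if i = a then -c else l i, ?_, ⟨i0, mem_insert_of_mem hi0, ?_⟩, ?_⟩
        · intro i hi
          dsimp only
          split_ifs with h
          · linarith
          · exact hl0 i ((mem_insert.1 hi).resolve_left h)
        · have : i0 ≠ a := by rintro rfl; exact ha hi0
          simpa [this] using hi0'
        · rw [Finset.sum_insert ha]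
          simp only [if_true]
          have : ∑ x ∈ s, (if x = a then -c else l x) • q x = ∑ i ∈ s, l i • q i := by
            refine Finset.sum_congr rfl ?_
            intro i hi
            have : i ≠ a := by rintro rfl; exact ha hi
            simp [this]
          rw [this, ← hc]
          simp
      · push Not at hc0
        rcases ih V q with ⟨φ, hφ⟩ | ⟨l', hl0', ⟨i1, hi1, hi1'⟩, hl'⟩
        · left
          refine ⟨φ, ?_⟩
          intro i hi
          rcases mem_insert.1 hi with rfl | hi
          · have h1 : c * φ (q i) = ∑ j ∈ s, l j * φ (q j) := by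
              have := congrArg φ hc
              rw [map_smul, map_sum] at this
              simpa [smul_eq_mul] using this
            have h2 : 0 < ∑ j ∈ s, l j * φ (q j) := by
              refine Finset.sum_pos' ?_ ⟨i0, hi0, ?_⟩
              · intro j hj; exact mul_nonneg (hl0 j hj) (hφ j hj).le
              · exact mul_pos (lt_of_le_of_ne (hl0 i0 hi0) (Ne.symm hi0')) (hφ i0 hi0)
            rw [← h1] at h2
            exact (pos_iff_pos_of_mul_pos h2).1 hc0
          · exact hφ i hi
        · right
          refine ⟨fun i => if i = a then 0 else l' i, ?_, ⟨i1, mem_insert_of_mem hi1, ?_⟩, ?_⟩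
          · intro i hi
            dsimp only
            split_ifs with h
            · exact le_refl _
            · exact hl0' i ((mem_insert.1 hi).resolve_left h)
          · have : i1 ≠ a := by rintro rfl; exact ha hi1
            simpa [this] using hi1'
          · rw [Finset.sum_insert ha]
            simp only [if_true, zero_smul, zero_add]
            rw [← hl']
            refine Finset.sum_congr rfl ?_
            intro i hi
            have : i ≠ a := by rintro rfl; exact ha hi
            simp [this]

/-- clearing denominators of nonnegative rational numbers -/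
theorem clear {ι : Type} [Fintype ι] (κ : ι → ℚ) (h : ∀ j, 0 ≤ κ j) :
    ∃ D : ℕ, 0 < D ∧ ∀ E : ℕ, D ∣ E → ∃ n : ι → ℕ, ∀ j, (n j : ℚ) = E * κ j := by
  classical
  refine ⟨∏ j, (κ j).den, Finset.prod_pos fun j _ => (κ j).den_pos, ?_⟩
  intro E hE
  have hd : ∀ j, ∃ n : ℕ, (n : ℚ) = E * κ j := by
    intro j
    obtain ⟨t, ht⟩ := (Finset.dvd_prod_of_mem (fun j => (κ j).den) (mem_univ j)).trans hE
    refine ⟨t * (κ j).num.toNat, ?_⟩
    have h1 : ((κ j).num.toNat : ℚ) = (κ j).num := by
      have : ((κ j).num.toNat : ℤ) = (κ j).num := Int.toNat_of_nonneg (Rat.num_nonneg.2 (h j))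
      exact_mod_cast congrArg (fun x : ℤ => (x : ℚ)) this
    have h2 : κ j * (κ j).den = (κ j).num := Rat.mul_den_eq_num (κ j)
    rw [ht]
    push_cast
    rw [h1, ← h2]
    ring
  choose n hn using hd
  exact ⟨n, hn⟩

theorem k2 : Pool.Agent.W425.ND.TaskK2 := by
  classical
  intro r N v J hJ H
  set p : Fin r → (Option (Fin N) → ℚ) := fun j o => o.elim 1 (fun i => (v j i : ℚ)) with hp
  set W : Submodule ℚ (Option (Fin N) → ℚ) := Submodule.span ℚ (p '' (J : Set (Fin r))) with hW
  have hWJ : ∀ j ∈ J, p j ∈ W := fun j hj => Submodule.subset_span ⟨j, hj, rfl⟩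
  rcases gordan (k := ℚ) (univ.filter fun j => j ∉ J) (_ ⧸ W) (fun j => W.mkQ (p j)) with
    ⟨φ, hφ⟩ | ⟨l, hl0, ⟨i0, hi0, hi0'⟩, hl⟩
  · set Φ : (Option (Fin N) → ℚ) →ₗ[ℚ] ℚ := φ.comp W.mkQ with hΦ
    have hΦJ : ∀ j ∈ J, Φ (p j) = 0 := by
      intro j hj
      have : W.mkQ (p j) = 0 := by
        rw [Submodule.mkQ_apply, Submodule.Quotient.mk_eq_zero]; exact hWJ j hj
      rw [hΦ, LinearMap.comp_apply, this, map_zero]
    have hΦn : ∀ j, j ∉ J → 0 < Φ (p j) := by
      intro j hj
      exact hφ j (by simp [hj])
    have hexp : ∀ x, Φ x = ∑ o, x o * Φ (Pi.single o 1) := by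
      intro x
      conv_lhs => rw [LinearMap.pi_apply_eq_sum_univ Φ x]
      refine Finset.sum_congr rfl ?_
      intro o _
      rw [smul_eq_mul]
      congr 2
      funext o'
      simp [Pi.single_apply, eq_comm]
    have hval : ∀ j, ∑ i, ((Φ (Pi.single (some i) 1) : ℚ) : ℝ) * (v j i : ℝ) =
        ((Φ (p j) - Φ (Pi.single none 1) : ℚ) : ℝ) := by
      intro j
      rw [hexp (p j), Fintype.sum_option]
      push_cast
      simp [hp, mul_comm]
    refine ⟨fun i => ((Φ (Pi.single (some i) 1) : ℚ) : ℝ), ?_⟩
    intro j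
    unfold Pool.Agent.W425.ND.onFace
    simp only [hval]
    constructor
    · intro h
      by_contra hj
      obtain ⟨j0, hj0⟩ := hJ
      have h1 := h j0
      rw [hΦJ j0 hj0] at h1
      have h2 := hΦn j hj
      have h3 : Φ (p j) - Φ (Pi.single none 1) ≤ 0 - Φ (Pi.single none 1) := by exact_mod_cast h1
      linarith
    · intro hj j'
      rw [hΦJ j hj]
      have h2 : 0 ≤ Φ (p j') := by
        by_cases hj' : j' ∈ J
        · rw [hΦJ j' hj']
        · exact (hΦn j' hj').le
      have h3 : 0 - Φ (Pi.single none 1) ≤ Φ (p j') - Φ (Pi.single none 1) := by linarith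
      exact_mod_cast h3
  · exfalso
    have hmem : ∑ i ∈ univ.filter (fun j => j ∉ J), l i • p i ∈ W := by
      rw [← Submodule.Quotient.mk_eq_zero, ← Submodule.mkQ_apply, map_sum, ← hl]
      refine Finset.sum_congr rfl ?_
      intro i _
      rw [map_smul]
    obtain ⟨μ, hμJ, hμ⟩ : ∃ μ : Fin r → ℚ, (∀ j, j ∉ J → μ j = 0) ∧
        ∑ j, μ j • p j = ∑ i ∈ univ.filter (fun j => j ∉ J), l i • p i := by
      rw [hW, Finsupp.mem_span_image_iff_linearCombination] at hmem
      obtain ⟨μ, hμ1, hμ2⟩ := hmem
      refine ⟨μ, ?_, ?_⟩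
      · intro j hj
        by_contra hne
        exact hj (hμ1 (Finsupp.mem_support_iff.2 hne))
      · rw [← hμ2, Finsupp.linearCombination_apply, Finsupp.sum_fintype]
        simp
    set κ : Fin r → ℚ := fun j => if j ∈ J then max (-μ j) 0 else l j with hκ
    set κ' : Fin r → ℚ := fun j => max (μ j) 0 with hκ'
    have hκ0 : ∀ j, 0 ≤ κ j := by
      intro j
      simp only [hκ]
      split_ifs with h
      · exact le_max_right _ _
      · exact hl0 j (by simp [h])
    have hκ0' : ∀ j, 0 ≤ κ' j := fun j => le_max_right _ _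
    have hsum : ∀ o, ∑ j, κ j * p j o = ∑ j, κ' j * p j o := by
      intro o
      have h1 := congrFun hμ o
      rw [Finset.sum_apply, Finset.sum_apply, Finset.sum_filter] at h1
      have h2 : ∑ j, (κ' j * p j o - κ j * p j o) =
          ∑ j, ((μ j • p j) o - if j ∉ J then (l j • p j) o else 0) := by
        refine Finset.sum_congr rfl ?_
        intro j _
        simp only [hκ, hκ', Pi.smul_apply, smul_eq_mul]
        by_cases hj : j ∈ J
        · simp only [hj, not_true_eq_false, if_false, if_true, sub_zero]
          rcases le_total (μ j) 0 with h | h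
          · rw [max_eq_right h, max_eq_left (by linarith)]; ring
          · rw [max_eq_left h, max_eq_right (by linarith)]; ring
        · simp only [hj, not_false_eq_true, if_false, if_true, hμJ j hj]
          simp
      rw [Finset.sum_sub_distrib, Finset.sum_sub_distrib, h1, sub_self, sub_eq_zero] at h2
      exact h2.symm
    obtain ⟨D, hD, hD2⟩ := clear κ hκ0
    obtain ⟨D', hD', hD2'⟩ := clear κ' hκ0'
    obtain ⟨n, hn⟩ := hD2 (D * D') (Dvd.intro _ rfl)
    obtain ⟨n', hn'⟩ := hD2' (D * D') (Dvd.intro_left _ rfl)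
    have key : ∀ o, ∑ j, (n j : ℚ) * p j o = ∑ j, (n' j : ℚ) * p j o := by
      intro o
      have := congrArg (fun x => ((D * D' : ℕ) : ℚ) * x) (hsum o)
      simp only [Finset.mul_sum] at this
      simp only [hn, hn']
      rw [← sub_eq_zero, ← Finset.sum_sub_distrib]
      rw [← sub_eq_zero, ← Finset.sum_sub_distrib] at this
      rw [← this]
      refine Finset.sum_congr rfl ?_
      intro j _
      ring
    have k0 : ∑ j, n j = ∑ j, n' j := by
      have := key none
      simp only [hp, Option.elim, mul_one] at this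
      exact_mod_cast this
    have k1 : ∀ i, ∑ j, n j * v j i = ∑ j, n' j * v j i := by
      intro i
      have := key (some i)
      simp only [hp, Option.elim] at this
      exact_mod_cast this
    have hDD : ((D * D' : ℕ) : ℚ) ≠ 0 := by
      have : 0 < D * D' := Nat.mul_pos hD hD'
      exact_mod_cast this.ne'
    have k2 : ∀ j, n' j ≠ 0 → j ∈ J := by
      intro j hj
      by_contra hjJ
      apply hj
      have h1 := hn' j
      simp only [hκ', hμJ j hjJ, max_self, mul_zero] at h1
      exact_mod_cast h1
    have k3 := H n n' k0 k1 k2 i0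
    have hi0J : i0 ∉ J := by simpa using hi0
    apply hi0J
    apply k3
    intro h0
    have h1 := hn i0
    rw [h0] at h1
    simp only [hκ, hi0J, if_false] at h1
    have h2 : ((D * D' : ℕ) : ℚ) * l i0 = 0 := by rw [← h1]; simp
    rcases mul_eq_zero.1 h2 with h | h
    · exact hDD h
    · exact hi0' h

end Pool.Agent.W13.ND
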